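import Mathlib.Analysis.InnerProductSpace.Basic
import Mathlib.Analysis.Normed.Lp.lpSpace

/-!
# The definitions of the statement
-/

namespace Pool.Agent.Helper87.BM2

/-- `E` has a subspace isomorphic to `ℓ¹`: some bounded linear map `J` from `ℓ¹` to `E` satisfies
`c ‖a‖ ≤ ‖J a‖` for a positive constant `c`. -/
def ContainsEllOne (E : Type*) [NormedAddCommGroup E] [NormedSpace ℝ E] : Prop :=
  ∃ (J : lp (fun _ : ℕ => ℝ) 1 →L[ℝ] E) (c : ℝ), 0 < c ∧ ∀ a, c * ‖a‖ ≤ ‖J a‖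

/-- `C` is an inner product on the linear subspace `V`: on `V` it is symmetric, linear in the
first variable and positive definite. (The values of `C` outside `V` play no role.) -/
def IsInnerProductOn {E : Type*} [AddCommGroup E] [Module ℝ E] (V : Submodule ℝ E)
    (C : E → E → ℝ) : Prop :=
  (∀ v ∈ V, ∀ w ∈ V, C v w = C w v) ∧
    (∀ u ∈ V, ∀ v ∈ V, ∀ w ∈ V, C (u + v) w = C u w + C v w) ∧
    (∀ r : ℝ, ∀ v ∈ V, ∀ w ∈ V, C (r • v) w = r * C v w) ∧
    ∀ v ∈ V, v ≠ 0 → 0 < C v v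

end Pool.Agent.Helper87.BM2
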