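import Mathlib.Analysis.InnerProductSpace.l2Space
import Mathlib.Analysis.InnerProductSpace.Dual
import Pool.Agent.Helper60.Rosenthal.Main

/-!
# Touching ellipsoids: the outer half, by duality
-/

open Filter Topology

namespace Pool.Agent.Helper87.BM2

open Helper60.Rosenthal Helper59.Rotation NormedSpace

/-- the sequence space of the statement -/
abbrev L2 : Type := lp (fun _ : ℕ => ℝ) 2

section Dual

variable {E : Type*} [NormedAddCommGroup E] [NormedSpace ℝ E]

/-- The two facts on the dual space which the proof uses. -/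
theorem dual_facts [CompleteSpace E] [TopologicalSpace.SeparableSpace E]
    (htrans : ∀ x y : E, ‖x‖ = 1 → ‖y‖ = 1 → ∃ T : E ≃ₗᵢ[ℝ] E, T x = y)
    (hl1 : ¬ ContainsL1 E) :
    TopologicalSpace.SeparableSpace (StrongDual ℝ E) ∧
      ∀ f : StrongDual ℝ E, ‖f‖ = 1 → ∃ x : E, ‖x‖ = 1 ∧ f x = 1 := by
  have hsm : ∀ x : E, ‖x‖ = 1 → SmoothAt x := fun x hx => smoothAt_of_transitive htrans hx
  have hsepD : TopologicalSpace.SeparableSpace (StrongDual ℝ E) :=
    dual_separable fun z hz => IsO.eq_zero hsm htrans hl1 hz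
  have hUS : USmooth E := usmooth_of_separable_dual htrans
  have hUCD : UConvex (StrongDual ℝ E) := uconvex_dual hUS
  have hsurj : Function.Surjective (inclusionInDoubleDualLi ℝ (E := E)) :=
    surjective_of_uconvex hUCD (inclusionInDoubleDualLi ℝ (E := E)) (by
      intro f c hc
      by_cases hc0 : c < 0
      · exact ⟨0, by simp, by simpa using hc0⟩
      · obtain ⟨x, hx, hfx⟩ := exists_unit_lt f (not_lt.mp hc0) hc
        exact ⟨x, hx.le, hfx⟩)
  refine ⟨hsepD, fun f hf => ?_⟩
  obtain ⟨z, hz, hzf⟩ := exists_dual_vector ℝ f (by rw [hf]; norm_num)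
  obtain ⟨x, rfl⟩ := hsurj z
  refine ⟨x, ?_, ?_⟩
  · rw [← hz]
    exact ((inclusionInDoubleDualLi ℝ (E := E)).norm_map x).symm
  · have : inclusionInDoubleDualLi ℝ x f = f x := rfl
    rw [← this, hzf, hf]
    norm_num

/-- The transpose of an operator from a Hilbert space to the dual space. -/
noncomputable def transpose {H : Type*} [NormedAddCommGroup H] [InnerProductSpace ℝ H]
    [CompleteSpace H] (S : H →L[ℝ] StrongDual ℝ E) : E →ₗ[ℝ] H where
  toFun v := (InnerProductSpace.toDual ℝ H).symm (S.flip v)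
  map_add' v w := by simp
  map_smul' c v := by simp

theorem inner_transpose {H : Type*} [NormedAddCommGroup H] [InnerProductSpace ℝ H]
    [CompleteSpace H] (S : H →L[ℝ] StrongDual ℝ E) (v : E) (b : H) :
    inner ℝ (transpose S v) b = S b v := by
  change inner ℝ ((InnerProductSpace.toDual ℝ H).symm (S.flip v)) b = S b v
  rw [InnerProductSpace.toDual_symm_apply]
  rfl

theorem norm_transpose_le {H : Type*} [NormedAddCommGroup H] [InnerProductSpace ℝ H]
    [CompleteSpace H] {S : H →L[ℝ] StrongDual ℝ E} (hS : ∀ b, ‖S b‖ ≤ ‖b‖) (v : E) :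
    ‖transpose S v‖ ≤ ‖v‖ := by
  change ‖(InnerProductSpace.toDual ℝ H).symm (S.flip v)‖ ≤ ‖v‖
  rw [LinearIsometryEquiv.norm_map]
  refine ContinuousLinearMap.opNorm_le_bound _ (norm_nonneg _) fun b => ?_
  change ‖S b v‖ ≤ ‖v‖ * ‖b‖
  calc ‖S b v‖ ≤ ‖S b‖ * ‖v‖ := (S b).le_opNorm v
    _ ≤ ‖b‖ * ‖v‖ := by gcongr; exact hS b
    _ = ‖v‖ * ‖b‖ := mul_comm _ _

theorem injective_transpose {H : Type*} [NormedAddCommGroup H] [InnerProductSpace ℝ H]
    [CompleteSpace H] {S : H →L[ℝ] StrongDual ℝ E} (hS : DenseRange S) :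
    Function.Injective (transpose S) := by
  rw [← LinearMap.ker_eq_bot, LinearMap.ker_eq_bot']
  intro v hv
  have h1 : ∀ b, S b v = 0 := fun b => by rw [← inner_transpose, hv, inner_zero_left]
  have h2 : ∀ f : StrongDual ℝ E, f v = 0 := by
    intro f
    refine hS.induction_on f ?_ h1
    exact isClosed_eq (by fun_prop) continuous_const
  by_contra hv0
  obtain ⟨g, -, hg⟩ := exists_dual_vector ℝ v (norm_ne_zero_iff.mpr hv0 |> fun h => by simpa using h)
  rw [h2 g] at hg
  have : ‖v‖ = 0 := by exact_mod_cast hg.symm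
  exact hv0 (norm_eq_zero.mp this)

/-- **Outer half.** If the dual space has a touching operator and functionals attain their norm,
the unit ball is contained in an ellipsoid without lines which touches the unit sphere. -/
theorem exists_outer (hatt : ∀ f : StrongDual ℝ E, ‖f‖ = 1 → ∃ x : E, ‖x‖ = 1 ∧ f x = 1)
    (htouch : ∃ (S : L2 →L[ℝ] StrongDual ℝ E) (a : L2), DenseRange S ∧ (∀ b, ‖S b‖ ≤ ‖b‖) ∧
      ‖a‖ = 1 ∧ ‖S a‖ = 1) :
    ∃ (T : E →L[ℝ] L2) (x : E), Function.Injective T ∧ (∀ v, ‖T v‖ ≤ ‖v‖) ∧ ‖x‖ = 1 ∧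
      ‖T x‖ = 1 := by
  obtain ⟨S, a, hSd, hS, ha, hSa⟩ := htouch
  obtain ⟨x, hx, hx1⟩ := hatt _ hSa
  refine ⟨(transpose S).mkContinuous 1 fun v => by
    rw [one_mul]; exact norm_transpose_le hS v, x, injective_transpose hSd,
    fun v => norm_transpose_le hS v, hx, le_antisymm ?_ ?_⟩
  · exact (norm_transpose_le hS x).trans hx.le
  · have h := real_inner_le_norm (transpose S x) a
    rw [inner_transpose, hx1, ha, mul_one] at h
    exact h

end Dual

end Pool.Agent.Helper87.BM2
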