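import Pool.Agent.Helper87.BM2.Defs
import Pool.Agent.Helper87.BM2.Dual
import Pool.Agent.Helper83.BM2.Touch

/-!
# From touching operators to touching inner products
-/

namespace Pool.Agent.Helper87.BM2

variable {E : Type*} [NormedAddCommGroup E] [NormedSpace ℝ E]
variable {H : Type*} [NormedAddCommGroup H] [InnerProductSpace ℝ H]

/-- The inner product pulled back by an injective operator. -/
theorem exists_form_le {T : E →L[ℝ] H} (hTi : Function.Injective T) (hT : ∀ v, ‖T v‖ ≤ ‖v‖)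
    {x : E} (hx : ‖T x‖ = 1) :
    ∃ B : E →ₗ[ℝ] E →ₗ[ℝ] ℝ, (∀ v w, B v w = B w v) ∧ (∀ v, v ≠ 0 → 0 < B v v) ∧
      (∀ v, B v v ≤ ‖v‖ ^ 2) ∧ B x x = 1 := by
  refine ⟨(innerₗ H).compl₁₂ (T : E →ₗ[ℝ] H) (T : E →ₗ[ℝ] H), ?_, ?_, ?_, ?_⟩
  · intro v w
    exact real_inner_comm _ _
  · intro v hv
    change 0 < inner ℝ (T v) (T v)
    rw [real_inner_self_eq_norm_sq]
    have h1 : T v ≠ 0 := fun h => hv (hTi (by rw [h, map_zero]))
    have := norm_pos_iff.mpr h1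
    positivity
  · intro v
    change inner ℝ (T v) (T v) ≤ ‖v‖ ^ 2
    rw [real_inner_self_eq_norm_sq]
    exact pow_le_pow_left₀ (norm_nonneg _) (hT v) 2
  · change inner ℝ (T x) (T x) = 1
    rw [real_inner_self_eq_norm_sq, hx, one_pow]

/-- The inner product pushed forward by an operator with dense range. -/
theorem exists_form_ge [CompleteSpace H] {S : H →L[ℝ] E} (hSd : DenseRange S)
    (hS : ∀ b, ‖S b‖ ≤ ‖b‖) {a : H} (ha : ‖a‖ = 1) {x : E} (hx : ‖x‖ = 1) (hax : S a = x) :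
    ∃ (V : Submodule ℝ E) (C : V →ₗ[ℝ] V →ₗ[ℝ] ℝ), Dense (V : Set E) ∧
      (∀ v w, C v w = C w v) ∧ (∀ v : V, ‖(v : E)‖ ^ 2 ≤ C v v) ∧
      ∃ a : V, (a : E) = x ∧ C a a = 1 := by
  set N : Submodule ℝ H := LinearMap.ker (S : H →ₗ[ℝ] E) with hN
  have hNc : IsClosed (N : Set H) := by
    have : (N : Set H) = S ⁻¹' {0} := by ext; simp [hN]
    rw [this]
    exact isClosed_singleton.preimage S.continuous
  haveI : CompleteSpace N := hNc.completeSpace_coe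
  set K : Submodule ℝ H := Nᗮ with hK
  set R : K →ₗ[ℝ] E := (S : H →ₗ[ℝ] E).domRestrict K with hR
  have hRi : Function.Injective R := by
    rw [← LinearMap.ker_eq_bot, LinearMap.ker_eq_bot']
    intro k hk
    have h1 : (k : H) ∈ N := hk
    have h2 : (k : H) ∈ N ⊓ Nᗮ := ⟨h1, k.2⟩
    rw [Submodule.inf_orthogonal_eq_bot] at h2
    exact Subtype.ext ((Submodule.mem_bot ℝ).1 h2)
  -- every value of `S` is a value of `R` at a vector which is not longer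
  have hval : ∀ b : H, ∃ k : K, R k = S b ∧ ‖(k : H)‖ ≤ ‖b‖ := by
    intro b
    obtain ⟨y, hy, z, hz, hb⟩ := N.exists_add_mem_mem_orthogonal b
    refine ⟨⟨z, hz⟩, ?_, ?_⟩
    · change S z = S b
      have hy0 : S y = 0 := hy
      rw [hb, map_add, hy0, zero_add]
    · change ‖z‖ ≤ ‖b‖
      have h3 : inner ℝ y z = 0 := hz y hy
      have h4 : ‖b‖ ^ 2 = ‖y‖ ^ 2 + ‖z‖ ^ 2 := by
        have h3' : inner ℝ z y = 0 := by rw [real_inner_comm]; exact h3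
        rw [hb, ← real_inner_self_eq_norm_sq, inner_add_left, inner_add_right, inner_add_right,
          h3, h3', real_inner_self_eq_norm_sq, real_inner_self_eq_norm_sq]
        ring
      have h5 : ‖z‖ ^ 2 ≤ ‖b‖ ^ 2 := by nlinarith [sq_nonneg ‖y‖]
      exact (pow_le_pow_iff_left₀ (norm_nonneg _) (norm_nonneg _) two_ne_zero).1 h5
  let e : K ≃ₗ[ℝ] LinearMap.range R := LinearEquiv.ofInjective R hRi
  have he : ∀ v : LinearMap.range R, S ((e.symm v : K) : H) = v := by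
    intro v
    have := congrArg Subtype.val (e.apply_symm_apply v)
    exact this
  let f : LinearMap.range R →ₗ[ℝ] H := K.subtype ∘ₗ (e.symm : LinearMap.range R →ₗ[ℝ] K)
  refine ⟨LinearMap.range R, (innerₗ H).compl₁₂ f f, ?_, ?_, ?_, ?_⟩
  · have hsub : Set.range S ⊆ (LinearMap.range R : Set E) := by
      rintro _ ⟨b, rfl⟩
      obtain ⟨k, hk, -⟩ := hval b
      exact ⟨k, hk⟩
    exact hSd.mono hsub
  · intro v w
    exact real_inner_comm _ _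
  · intro v
    change ‖(v : E)‖ ^ 2 ≤ inner ℝ ((e.symm v : K) : H) ((e.symm v : K) : H)
    rw [real_inner_self_eq_norm_sq]
    have h9 := hS ((e.symm v : K) : H)
    rw [he v] at h9
    exact pow_le_pow_left₀ (norm_nonneg _) h9 2
  · obtain ⟨k, hk, hk1⟩ := hval a
    rw [hax] at hk
    refine ⟨⟨x, ⟨k, hk⟩⟩, rfl, ?_⟩
    have h6 : e.symm ⟨x, ⟨k, hk⟩⟩ = k := by
      rw [LinearEquiv.symm_apply_eq]
      exact Subtype.ext hk.symm
    change inner ℝ ((e.symm ⟨x, ⟨k, hk⟩⟩ : K) : H) ((e.symm ⟨x, ⟨k, hk⟩⟩ : K) : H) = 1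
    rw [h6, real_inner_self_eq_norm_sq]
    have h7 : 1 ≤ ‖(k : H)‖ := by
      have := hS (k : H)
      have h8 : S (k : H) = x := hk
      rw [h8, hx] at this
      exact this
    rw [ha] at hk1
    rw [le_antisymm hk1 h7, one_pow]

/-- a bilinear form as a function of two variables -/
theorem inner_of_le {x : E} (h : ∃ B : E →ₗ[ℝ] E →ₗ[ℝ] ℝ, (∀ v w, B v w = B w v) ∧
      (∀ v, v ≠ 0 → 0 < B v v) ∧ (∀ v, B v v ≤ ‖v‖ ^ 2) ∧ B x x = 1) :
    ∃ B : E → E → ℝ, IsInnerProductOn ⊤ B ∧ (∀ v, B v v ≤ ‖v‖ ^ 2) ∧ B x x = 1 := by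
  obtain ⟨B, h1, h2, h3, h4⟩ := h
  refine ⟨fun v w => B v w, ⟨fun v _ w _ => h1 v w, fun u _ v _ w _ => ?_, fun r v _ w _ => ?_,
    fun v _ hv => h2 v hv⟩, h3, h4⟩
  · simp
  · simp

open Classical in
/-- a bilinear form on a subspace as a function of two variables -/
theorem inner_of_ge {x : E} (h : ∃ (V : Submodule ℝ E) (C : V →ₗ[ℝ] V →ₗ[ℝ] ℝ),
      Dense (V : Set E) ∧ (∀ v w, C v w = C w v) ∧ (∀ v : V, ‖(v : E)‖ ^ 2 ≤ C v v) ∧
      ∃ a : V, (a : E) = x ∧ C a a = 1) :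
    ∃ (V : Submodule ℝ E) (C : E → E → ℝ), Dense (V : Set E) ∧ x ∈ V ∧ IsInnerProductOn V C ∧
      (∀ v ∈ V, ‖v‖ ^ 2 ≤ C v v) ∧ C x x = 1 := by
  obtain ⟨V, C, h1, h2, h3, a, ha, h4⟩ := h
  have key : ∀ v w : V, (fun v w : E => if h : v ∈ V ∧ w ∈ V then C ⟨v, h.1⟩ ⟨w, h.2⟩ else 0)
      v w = C v w := by
    intro v w
    exact dif_pos (⟨v.2, w.2⟩ : (v : E) ∈ V ∧ (w : E) ∈ V)
  refine ⟨V, fun v w => if h : v ∈ V ∧ w ∈ V then C ⟨v, h.1⟩ ⟨w, h.2⟩ else 0, h1, ha ▸ a.2,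
    ⟨?_, ?_, ?_, ?_⟩, ?_, ?_⟩
  · intro v hv w hw
    have e1 := key ⟨v, hv⟩ ⟨w, hw⟩
    have e2 := key ⟨w, hw⟩ ⟨v, hv⟩
    exact e1.trans ((h2 _ _).trans e2.symm)
  · intro u hu v hv w hw
    have e1 := key (⟨u, hu⟩ + ⟨v, hv⟩) ⟨w, hw⟩
    have e2 := key ⟨u, hu⟩ ⟨w, hw⟩
    have e3 := key ⟨v, hv⟩ ⟨w, hw⟩
    refine e1.trans ?_
    rw [map_add]
    exact congrArg₂ (· + ·) e2.symm e3.symm
  · intro r v hv w hw
    have e1 := key (r • ⟨v, hv⟩) ⟨w, hw⟩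
    have e2 := key ⟨v, hv⟩ ⟨w, hw⟩
    refine e1.trans ?_
    rw [map_smul]
    exact congrArg (r * ·) e2.symm
  · intro v hv hv0
    have e1 := key ⟨v, hv⟩ ⟨v, hv⟩
    have e2 := h3 ⟨v, hv⟩
    have e3 : 0 < ‖v‖ := norm_pos_iff.2 hv0
    have e4 : 0 < ‖v‖ ^ 2 := by positivity
    exact lt_of_lt_of_le e4 (e2.trans e1.symm.le)
  · intro v hv
    have e1 := key ⟨v, hv⟩ ⟨v, hv⟩
    exact (h3 ⟨v, hv⟩).trans e1.symm.le
  · subst ha
    exact (key a a).trans h4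

end Pool.Agent.Helper87.BM2
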